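import Pool.Agent.N659.HB.Stm

/-!
Project HB (helper659), part UX: the effective contraction in additive variables.
-/

set_option autoImplicit false

namespace Pool.Agent.N692.HB.UX

open MeasureTheory Filter Complex Pool.Agent.W792.LL Pool.Agent.W792.WA Pool.Agent.N659.HB

lemma ne0 {t : ℂ} (ht : t.im < 0) (a : ℝ) : t + (a : ℂ) ≠ 0 := by
  intro h
  have := congrArg Complex.im h
  simp at this
  linarith

lemma norm_lo (t : ℂ) (a : ℝ) : |t.im| ≤ ‖t + (a : ℂ)‖ := by
  have h := Complex.abs_im_le_norm (t + (a : ℂ))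
  simpa using h

lemma g_cont {t : ℂ} (ht : t.im < 0) : Continuous fun a : ℝ => 1 / (t + (a : ℂ)) :=
  continuous_const.div (by fun_prop) (ne0 ht)

lemma g_bd {t : ℂ} (ht : t.im < 0) (a : ℝ) : ‖1 / (t + (a : ℂ))‖ ≤ 1 / |t.im| := by
  rw [norm_div, norm_one]
  exact one_div_le_one_div_of_le (abs_pos.2 ht.ne) (norm_lo t a)

lemma g_int {t : ℂ} (ht : t.im < 0) (ρ : Measure ℝ) [IsProbabilityMeasure ρ] :
    Integrable (fun a : ℝ => 1 / (t + (a : ℂ))) ρ :=
  Integrable.of_bound (g_cont ht).aestronglyMeasurable (1 / |t.im|)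
    (Eventually.of_forall (g_bd ht))

lemma h_int {t : ℂ} (ht : t.im < 0) (ρ : Measure ℝ) [IsProbabilityMeasure ρ] :
    Integrable (fun a : ℝ => ‖1 / (t + (a : ℂ))‖ ^ 2) ρ := by
  refine Integrable.of_bound ((g_cont ht).norm.pow 2).aestronglyMeasurable ((1 / |t.im|) ^ 2)
    (Eventually.of_forall fun a => ?_)
  rw [Real.norm_eq_abs, abs_of_nonneg (by positivity)]
  exact pow_le_pow_left₀ (norm_nonneg _) (g_bd ht a) 2

lemma im_g (t : ℂ) (a : ℝ) : (1 / (t + (a : ℂ))).im = -t.im * ‖1 / (t + (a : ℂ))‖ ^ 2 := by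
  rw [norm_div, norm_one, div_pow, one_pow, ← Complex.normSq_eq_norm_sq, one_div, Complex.inv_im]
  simp
  ring

lemma bet_im {t : ℂ} (ht : t.im < 0) (ρ : Measure ℝ) [IsProbabilityMeasure ρ] :
    (bet ρ t).im = -t.im * ∫ a, ‖1 / (t + (a : ℂ))‖ ^ 2 ∂ρ := by
  unfold bet
  have h := Complex.imCLM.integral_comp_comm (g_int ht ρ)
  simp only [Complex.imCLM_apply] at h
  rw [← h, ← integral_const_mul]
  exact integral_congr_ae (Eventually.of_forall fun a => im_g t a)

lemma h_pos {t : ℂ} (ht : t.im < 0) (ρ : Measure ℝ) [IsProbabilityMeasure ρ] :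
    0 < ∫ a, ‖1 / (t + (a : ℂ))‖ ^ 2 ∂ρ := by
  rw [integral_pos_iff_support_of_nonneg (fun a => by positivity) (h_int ht ρ)]
  have h : Function.support (fun a : ℝ => ‖1 / (t + (a : ℂ))‖ ^ 2) = Set.univ := by
    ext a
    simp only [Function.mem_support, Set.mem_univ, iff_true]
    have h1 : 1 / (t + (a : ℂ)) ≠ 0 := one_div_ne_zero (ne0 ht a)
    positivity
  rw [h, measure_univ]
  exact one_pos

lemma jensen {t : ℂ} (ht : t.im < 0) (ρ : Measure ℝ) [IsProbabilityMeasure ρ] :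
    ‖bet ρ t‖ ^ 2 ≤ ∫ a, ‖1 / (t + (a : ℂ))‖ ^ 2 ∂ρ := by
  have hc : ConvexOn ℝ Set.univ fun z : ℂ => ‖z‖ ^ 2 :=
    convexOn_univ_norm.pow (fun _ _ => norm_nonneg _) 2
  exact hc.map_integral_le (by fun_prop) isClosed_univ
    (Eventually.of_forall fun _ => Set.mem_univ _) (g_int ht ρ) (h_int ht ρ)

lemma bet_ne {t : ℂ} (ht : t.im < 0) (ρ : Measure ℝ) [IsProbabilityMeasure ρ] :
    bet ρ t ≠ 0 := by
  intro h
  have h1 := bet_im ht ρ
  rw [h, Complex.zero_im] at h1
  have := h_pos ht ρ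
  nlinarith

lemma inv_bet_im {t : ℂ} (ht : t.im < 0) (ρ : Measure ℝ) [IsProbabilityMeasure ρ] :
    (1 / bet ρ t).im ≤ t.im := by
  rw [one_div, Complex.inv_im, bet_im ht ρ, Complex.normSq_eq_norm_sq]
  have h1 := jensen ht ρ
  have h2 : 0 < ‖bet ρ t‖ ^ 2 := by
    have := norm_pos_iff.2 (bet_ne ht ρ)
    positivity
  rw [div_le_iff₀ h2]
  nlinarith

lemma bs_eq {x S : ℂ} (hx : x.im < 0) (hS : S.im ≤ 0) (ρ : Measure ℝ) [IsProbabilityMeasure ρ] :
    Bs ρ (cayx x) (cayx S 0) = (S - I) / (-(2 * I)) * (1 - (S - I) * bet ρ (x + S)) := by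
  have ht : (x + S).im < 0 := by rw [Complex.add_im]; linarith
  have hSi : S - I ≠ 0 := by
    intro h
    have := congrArg Complex.im h
    simp at this
    linarith
  have e2 : ∫ a : ℝ, (1 - (S - I) * (1 / (x + S + (a : ℂ)))) ∂ρ =
      1 - (S - I) * bet ρ (x + S) := by
    rw [integral_sub (integrable_const _) ((g_int ht ρ).const_mul _), integral_const_mul]
    unfold bet
    congr 1
    simp
  rw [← e2, ← integral_const_mul]
  unfold Bs
  refine integral_congr_ae (Eventually.of_forall fun a => ?_)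
  have h1 : x + (a : ℂ) - I ≠ 0 := by
    intro h
    have := congrArg Complex.im h
    simp at this
    linarith
  have h2 : x + S + (a : ℂ) ≠ 0 := ne0 ht a
  have h3 : 1 - cayx x a * cayx S 0 =
      -(2 * I) * (x + S + a) / ((x + a - I) * (S - I)) := by
    unfold cayx
    rw [Complex.ofReal_zero, add_zero]
    field_simp
    ring
  have hI : (2 * I : ℂ) ≠ 0 := by simp
  simp only []
  rw [h3]
  unfold cayx
  field_simp
  ring

theorem main : S_UX := by
  intro ρ _ C x S _ hx hS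
  have ht : (x + S).im < 0 := by rw [Complex.add_im]; linarith
  have hb := bet_ne ht ρ
  have hX : (1 / bet ρ (x + S) - S).im < 0 := by
    rw [Complex.sub_im]
    have := inv_bet_im ht ρ
    rw [Complex.add_im] at this
    linarith
  refine ⟨hb, hX, ?_⟩
  have hSi : S - I ≠ 0 := by
    intro h
    have := congrArg Complex.im h
    simp at this
    linarith
  have hXi : 1 / bet ρ (x + S) - S - I ≠ 0 := by
    intro h
    have := congrArg Complex.im h
    rw [Complex.sub_im, Complex.I_im, Complex.zero_im] at this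
    linarith
  unfold Us
  rw [bs_eq hx hS ρ]
  obtain ⟨b, hbd⟩ : ∃ b, b = bet ρ (x + S) := ⟨_, rfl⟩
  rw [← hbd] at hb hXi ⊢
  have h1 : 1 - (S + I) * b ≠ 0 := by
    intro h
    apply hXi
    have : 1 / b - S - I = (1 - (S + I) * b) / b := by field_simp; ring
    rw [this, h, zero_div]
  have hI : (2 * I : ℂ) ≠ 0 := by simp
  have h2 : 1 + cayx S 0 * ((S - I) / (-(2 * I)) * (1 - (S - I) * b)) =
      (S - I) / (-(2 * I)) * (1 - (S + I) * b) := by
    unfold cayx
    rw [Complex.ofReal_zero, add_zero]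
    field_simp
    ring
  have h3 : cayx (1 / b - S) 0 = (1 - (S - I) * b) / (1 - (S + I) * b) := by
    unfold cayx
    rw [Complex.ofReal_zero, add_zero]
    have h4 : 1 / b - S + I = (1 - (S - I) * b) / b := by field_simp; ring
    have h5 : 1 / b - S - I = (1 - (S + I) * b) / b := by field_simp; ring
    rw [h4, h5, div_div_div_cancel_right₀ hb]
  rw [h2, h3, mul_div_mul_left _ _ (div_ne_zero hSi (neg_ne_zero.2 hI))]

end Pool.Agent.N692.HB.UX
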