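import Mathlib
import Pool.Agent.N741.HB.Stm2

/-!
# HB/23: charts (algebra)

Project HB (helper741); this file by helper692. The whole space, single points, and the chart of a
generic set; factors of the homogenised polynomials.
-/

set_option autoImplicit false

namespace Pool.Agent.N692.HB.Gdm

open MvPolynomial Pool.Agent.N741.HB Pool.Agent.Y902.GN

section basic

variable {d : ℕ}

/-- the substitution `Θ = 0` -/
noncomputable def pr (d : ℕ) : MvPolynomial (Option (Fin d)) ℤ →ₐ[ℤ] MvPolynomial (Fin d) ℤ :=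
  aeval fun o => o.elim 0 X

theorem pr_rename (c : MvPolynomial (Fin d) ℤ) : pr d (rename some c) = c := by
  unfold pr
  rw [aeval_rename]
  exact aeval_X_left_apply c

theorem dvd_pr (p : MvPolynomial (Option (Fin d)) ℤ) :
    (X none : MvPolynomial (Option (Fin d)) ℤ) ∣ p - rename some (pr d p) := by
  induction p using MvPolynomial.induction_on with
  | C a => simp [pr]
  | add p q hp hq =>
    have e : p + q - rename some (pr d (p + q)) =
        (p - rename some (pr d p)) + (q - rename some (pr d q)) := by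
      rw [map_add, map_add]; ring
    rw [e]
    exact dvd_add hp hq
  | mul_X p o hp =>
    rcases o with _ | b
    · have e : pr d (p * X none) = 0 := by
        rw [map_mul]
        simp [pr]
      rw [e, map_zero, sub_zero]
      exact dvd_mul_left _ _
    · have e : p * X (some b) - rename some (pr d (p * X (some b))) =
          (p - rename some (pr d p)) * X (some b) := by
        rw [map_mul, map_mul]
        have e1 : rename some (pr d (X (some b))) = (X (some b) : MvPolynomial (Option (Fin d)) ℤ) := by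
          simp [pr]
        rw [e1]; ring
      rw [e]
      exact hp.mul_right _

theorem inP_X {p : MvPolynomial (Option (Fin d)) ℤ} : InP (X none) p ↔ pr d p = 0 := by
  constructor
  · rintro ⟨c, hc, q, hq⟩
    have h1 := congrArg (pr d) hq
    rw [map_mul, pr_rename, map_mul] at h1
    have h2 : pr d (X none) = 0 := by simp [pr]
    rw [h2, zero_mul] at h1
    exact (mul_eq_zero.1 h1).resolve_left hc
  · intro h
    refine ⟨1, one_ne_zero, ?_⟩
    rw [map_one, one_mul]
    have := dvd_pr p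
    rwa [h, map_zero, sub_zero] at this

theorem irr_X : Irr (X none : MvPolynomial (Option (Fin d)) ℤ) where
  ne := X_ne_zero _
  one := by
    rw [inP_X, map_one]
    exact one_ne_zero
  mul := by
    intro p q h
    rw [inP_X, map_mul] at h
    rw [inP_X, inP_X]
    exact mul_eq_zero.1 h

theorem coeff_X_le (m : Option (Fin d) →₀ ℕ) {B : ℤ} (hB : 1 ≤ B) (i : Option (Fin d)) :
    |(X i : MvPolynomial (Option (Fin d)) ℤ).coeff m| ≤ B := by
  classical
  rw [coeff_X]
  split_ifs
  · simpa using hB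
  · simpa using (by omega : (0 : ℤ) ≤ B)

theorem coeff_C_le {σ : Type*} (m : σ →₀ ℕ) {B a : ℤ} (hB : |a| ≤ B) :
    |(C a : MvPolynomial σ ℤ).coeff m| ≤ B := by
  classical
  rw [coeff_C]
  split_ifs
  · exact hB
  · simpa using (abs_nonneg a).trans hB

theorem one_le_pow_Y (Y K : ℕ) : (1 : ℤ) ≤ ((Y : ℤ) + 2) ^ K := one_le_pow₀ (by omega)

/-- the constant of a nonzero polynomial in `t` is nonzero -/
theorem phi_rename {h : MvPolynomial (Option (Fin d)) ℤ} (hi : Irr h) {L : Type} [Field L]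
    {φ : MvPolynomial (Option (Fin d)) ℤ →+* L} (hφ : ∀ p, φ p = 0 ↔ InP h p)
    {c : MvPolynomial (Fin d) ℤ} (hc : c ≠ 0) : φ (rename some c) ≠ 0 := by
  intro h0
  obtain ⟨c', hc', h1⟩ := (hφ _).1 h0
  apply hi.one
  refine ⟨c' * c, mul_ne_zero hc' hc, ?_⟩
  rw [map_mul, mul_one]
  exact h1

theorem phi_int {h : MvPolynomial (Option (Fin d)) ℤ} (hi : Irr h) {L : Type} [Field L]
    {φ : MvPolynomial (Option (Fin d)) ℤ →+* L} (hφ : ∀ p, φ p = 0 ↔ InP h p) :
    Function.Injective (Int.castRingHom L) := by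
  rw [injective_iff_map_eq_zero]
  intro a ha
  by_contra hne
  have h1 : φ (rename some (C a : MvPolynomial (Fin d) ℤ)) ≠ 0 :=
    phi_rename hi hφ (by rwa [Ne, C_eq_zero])
  apply h1
  rw [rename_C]
  have h2 : φ.comp C = Int.castRingHom L := RingHom.ext_int _ _
  exact (RingHom.congr_fun h2 a).trans ha

end basic

/-! ## Monotonicity -/

theorem cx_mono {n : ℕ} {V : Chart n} {K K' Y : ℕ} (h : V.Cx K Y) (hK : K ≤ K') : V.Cx K' Y := by
  have hp : ((Y : ℤ) + 2) ^ K ≤ ((Y : ℤ) + 2) ^ K' := pow_le_pow_right₀ (by omega) hK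
  exact ⟨h.d, h.irr, h.b0, h.hd.trans hK, h.b0d.trans hK, fun j => (h.bd j).trans hK,
    fun m => (h.hc m).trans hp, fun m => (h.b0c m).trans hp, fun j m => (h.bc j m).trans hp⟩

theorem factor_mono {n : ℕ} {V : Chart n} {P : Polynomial (MvPolynomial (Fin n) ℤ)} {K K' : ℕ}
    (h : V.Factor P K) (hK : K ≤ K') : V.Factor P K' := by
  intro L _ φ hφ
  obtain ⟨h1, M, h2, h3, h4⟩ := h L φ hφ
  exact ⟨h1, M, h2, h3.trans hK, h4⟩

theorem natDegree_pos {R S : Type*} [CommRing R] [CommRing S] {P : Polynomial R} {f : R →+* S}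
    {z : S} (h : (P.derivative.map f).eval z ≠ 0) : 1 ≤ P.natDegree := by
  by_contra hcon
  push Not at hcon
  have h1 : P.natDegree = 0 := by omega
  rw [Polynomial.eq_C_of_natDegree_eq_zero h1, Polynomial.derivative_C] at h
  simp at h

/-! ## The whole space -/

/-- the whole space -/
noncomputable def whole (n : ℕ) : Chart n := ⟨n, id, X none, 1, fun j => X (some j)⟩

theorem whole_pt {n : ℕ} (x : Fin n → ℤ) : (whole n).Pt x := by
  refine ⟨?_, 0, ?_, fun j => ?_⟩
  · show eval (fun b : Fin n => x b) (1 : MvPolynomial (Fin n) ℤ) ≠ 0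
    rw [map_one]
    exact one_ne_zero
  · show eval (fun o : Option (Fin n) => o.elim 0 fun b => x b)
      (X none : MvPolynomial (Option (Fin n)) ℤ) = 0
    rw [eval_X]
    rfl
  · show eval (fun b : Fin n => x b) (1 : MvPolynomial (Fin n) ℤ) * x j =
      eval (fun o : Option (Fin n) => o.elim 0 fun b => x b)
        (X (some j) : MvPolynomial (Option (Fin n)) ℤ)
    rw [map_one, one_mul, eval_X]
    rfl

theorem whole_cx {n : ℕ} {K : ℕ} (hK : 1 ≤ K) (Y : ℕ) : (whole n).Cx K Y where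
  d := le_rfl
  irr := irr_X
  b0 := show (1 : MvPolynomial (Fin n) ℤ) ≠ 0 from one_ne_zero
  hd := by
    show (X none : MvPolynomial (Option (Fin n)) ℤ).totalDegree ≤ K
    rw [totalDegree_X]; exact hK
  b0d := by
    show (1 : MvPolynomial (Fin n) ℤ).totalDegree ≤ K
    simp
  bd := fun j => by
    show (X (some j) : MvPolynomial (Option (Fin n)) ℤ).totalDegree ≤ K
    rw [totalDegree_X]; exact hK
  hc := fun m => coeff_X_le m (one_le_pow_Y Y K) none
  b0c := fun m => by
    show |(1 : MvPolynomial (Fin n) ℤ).coeff m| ≤ _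
    rw [← C_1]
    exact coeff_C_le m (by simpa using one_le_pow_Y Y K)
  bc := fun j m => coeff_X_le m (one_le_pow_Y Y K) (some j)

theorem whole_factor' {n K : ℕ} {P : Polynomial (MvPolynomial (Fin n) ℤ)} (h1 : 1 ≤ P.natDegree)
    (h2 : P.natDegree ≤ K) (L : Type) [Field L] (φ : MvPolynomial (Option (Fin n)) ℤ →+* L)
    (hφ : ∀ p, φ p = 0 ↔ InP (X none) p) :
    P.map (eval₂Hom (Int.castRingHom L)
      fun j => φ (X (some j)) / φ (rename some (1 : MvPolynomial (Fin n) ℤ))) ≠ 0 ∧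
    ∃ M : Polynomial L, 1 ≤ M.natDegree ∧ M.natDegree ≤ K ∧
      M ∣ P.map (eval₂Hom (Int.castRingHom L)
        fun j => φ (X (some j)) / φ (rename some (1 : MvPolynomial (Fin n) ℤ))) := by
  have hinj : Function.Injective (eval₂Hom (Int.castRingHom L)
      fun j => φ (X (some j)) / φ (rename some (1 : MvPolynomial (Fin n) ℤ))) := by
    have e : (eval₂Hom (Int.castRingHom L)
        fun j => φ (X (some j)) / φ (rename some (1 : MvPolynomial (Fin n) ℤ))) =
        φ.comp (rename (some : Fin n → Option (Fin n))).toRingHom := by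
      refine MvPolynomial.ringHom_ext' (RingHom.ext_int _ _) fun j => ?_
      rw [eval₂Hom_X']
      show φ (X (some j)) / φ (rename some (1 : MvPolynomial (Fin n) ℤ)) = φ (rename some (X j))
      rw [map_one, map_one, div_one, rename_X]
    rw [e, injective_iff_map_eq_zero]
    intro c hc
    by_contra hne
    exact phi_rename (irr_X (d := n)) hφ hne hc
  refine ⟨?_, P.map _, ?_, ?_, dvd_rfl⟩
  · rw [Polynomial.map_ne_zero_iff hinj]
    rintro rfl
    simp at h1
  · rw [Polynomial.natDegree_map_eq_of_injective hinj]; exact h1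
  · rw [Polynomial.natDegree_map_eq_of_injective hinj]; exact h2

theorem whole_factor {n K : ℕ} {P : Polynomial (MvPolynomial (Fin n) ℤ)} (h1 : 1 ≤ P.natDegree)
    (h2 : P.natDegree ≤ K) : (whole n).Factor P K := fun L _ φ hφ => whole_factor' h1 h2 L φ hφ

/-! ## Points -/

/-- a single point -/
noncomputable def pnt {n : ℕ} (x : Fin n → ℤ) : Chart n :=
  ⟨0, Fin.elim0, X none, 1, fun j => C (x j)⟩

theorem pnt_pt {n : ℕ} (x : Fin n → ℤ) : (pnt x).Pt x := by
  refine ⟨?_, 0, ?_, fun j => ?_⟩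
  · show eval (fun b : Fin 0 => x b.elim0) (1 : MvPolynomial (Fin 0) ℤ) ≠ 0
    rw [map_one]
    exact one_ne_zero
  · show eval (fun o : Option (Fin 0) => o.elim 0 fun b => x b.elim0)
      (X none : MvPolynomial (Option (Fin 0)) ℤ) = 0
    rw [eval_X]
    rfl
  · show eval (fun b : Fin 0 => x b.elim0) (1 : MvPolynomial (Fin 0) ℤ) * x j =
      eval (fun o : Option (Fin 0) => o.elim 0 fun b => x b.elim0)
        (C (x j) : MvPolynomial (Option (Fin 0)) ℤ)
    rw [map_one, one_mul, eval_C]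

theorem pnt_cx {n : ℕ} {x : Fin n → ℤ} {K : ℕ} (hK : 1 ≤ K) {Y : ℕ}
    (hx : ∀ j, 1 ≤ x j ∧ x j ≤ (Y : ℤ)) : (pnt x).Cx K Y where
  d := Nat.zero_le _
  irr := irr_X
  b0 := show (1 : MvPolynomial (Fin 0) ℤ) ≠ 0 from one_ne_zero
  hd := by
    show (X none : MvPolynomial (Option (Fin 0)) ℤ).totalDegree ≤ K
    rw [totalDegree_X]; exact hK
  b0d := by
    show (1 : MvPolynomial (Fin 0) ℤ).totalDegree ≤ K
    simp
  bd := fun j => by
    show (C (x j) : MvPolynomial (Option (Fin 0)) ℤ).totalDegree ≤ K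
    rw [totalDegree_C]; exact Nat.zero_le _
  hc := fun m => coeff_X_le m (one_le_pow_Y Y K) none
  b0c := fun m => by
    show |(1 : MvPolynomial (Fin 0) ℤ).coeff m| ≤ _
    rw [← C_1]
    exact coeff_C_le m (by simpa using one_le_pow_Y Y K)
  bc := fun j m => by
    refine coeff_C_le m ?_
    have h1 : ((Y : ℤ) + 2) ^ 1 ≤ ((Y : ℤ) + 2) ^ K := pow_le_pow_right₀ (by omega) hK
    have h2 := hx j
    rw [abs_of_nonneg (by omega)]
    rw [pow_one] at h1
    omega

theorem pnt_factor' {n K : ℕ} {x : Fin n → ℤ} {P : Polynomial (MvPolynomial (Fin n) ℤ)} {z : ℤ}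
    (hK : 1 ≤ K) (h1 : (P.map (eval x)).eval z = 0)
    (h2 : (P.derivative.map (eval x)).eval z ≠ 0) (L : Type) [Field L]
    (φ : MvPolynomial (Option (Fin 0)) ℤ →+* L) (hφ : ∀ p, φ p = 0 ↔ InP (X none) p) :
    P.map (eval₂Hom (Int.castRingHom L)
      fun j => φ (C (x j)) / φ (rename some (1 : MvPolynomial (Fin 0) ℤ))) ≠ 0 ∧
    ∃ M : Polynomial L, 1 ≤ M.natDegree ∧ M.natDegree ≤ K ∧
      M ∣ P.map (eval₂Hom (Int.castRingHom L)
        fun j => φ (C (x j)) / φ (rename some (1 : MvPolynomial (Fin 0) ℤ))) := by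
  have hinj := phi_int (irr_X (d := 0)) hφ
  have e : (eval₂Hom (Int.castRingHom L)
      fun j => φ (C (x j)) / φ (rename some (1 : MvPolynomial (Fin 0) ℤ))) =
      (Int.castRingHom L).comp (eval x) := by
    refine MvPolynomial.ringHom_ext' (RingHom.ext_int _ _) fun j => ?_
    rw [eval₂Hom_X']
    show φ (C (x j)) / φ (rename some (1 : MvPolynomial (Fin 0) ℤ)) =
      Int.castRingHom L (eval x (X j))
    rw [map_one, map_one, div_one, eval_X]
    have h3 : φ.comp C = Int.castRingHom L := RingHom.ext_int _ _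
    exact RingHom.congr_fun h3 (x j)
  rw [e, ← Polynomial.map_map]
  have hroot : ((P.map (eval x)).map (Int.castRingHom L)).eval (Int.castRingHom L z) = 0 := by
    rw [Polynomial.eval_map_apply, h1, map_zero]
  refine ⟨?_, Polynomial.X - Polynomial.C (Int.castRingHom L z), ?_, ?_, ?_⟩
  · rw [Polynomial.map_ne_zero_iff hinj]
    intro h0
    apply h2
    rw [← Polynomial.derivative_map, h0, Polynomial.derivative_zero, Polynomial.eval_zero]
  · rw [Polynomial.natDegree_X_sub_C]
  · rw [Polynomial.natDegree_X_sub_C]; exact hK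
  · exact Polynomial.dvd_iff_isRoot.2 hroot

theorem pnt_factor {n K : ℕ} {x : Fin n → ℤ} {P : Polynomial (MvPolynomial (Fin n) ℤ)} {z : ℤ}
    (hK : 1 ≤ K) (h1 : (P.map (eval x)).eval z = 0)
    (h2 : (P.derivative.map (eval x)).eval z ≠ 0) : (pnt x).Factor P K :=
  fun L _ φ hφ => pnt_factor' hK h1 h2 L φ hφ

/-! ## Homogenised polynomials -/

section hom

variable {n d : ℕ}

/-- `b0 ^ D * c (b / b0)` -/
noncomputable def hm (b0 : MvPolynomial (Option (Fin d)) ℤ)
    (b : Fin n → MvPolynomial (Option (Fin d)) ℤ) (D : ℕ) (c : MvPolynomial (Fin n) ℤ) :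
    MvPolynomial (Option (Fin d)) ℤ := ∑ m ∈ c.support, C (c.coeff m) * mon b0 b (fun j => m j) D

theorem hm_zero (b0 : MvPolynomial (Option (Fin d)) ℤ)
    (b : Fin n → MvPolynomial (Option (Fin d)) ℤ) (D : ℕ) : hm b0 b D 0 = 0 := by
  simp [hm]

theorem sum_le_of_mem {c : MvPolynomial (Fin n) ℤ} {D : ℕ} (hD : c.totalDegree ≤ D)
    {m : Fin n →₀ ℕ} (hm : m ∈ c.support) : ∑ j, m j ≤ D := by
  have h1 := (le_totalDegree hm).trans hD
  rwa [Finsupp.sum_fintype _ _ (fun _ => rfl)] at h1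

/-- the value under a homomorphism, given the values `y` of the coordinates -/
theorem map_hm {R : Type*} [CommRing R] (φ : MvPolynomial (Option (Fin d)) ℤ →+* R)
    {b0 : MvPolynomial (Option (Fin d)) ℤ} {b : Fin n → MvPolynomial (Option (Fin d)) ℤ}
    {y : Fin n → R} (hy : ∀ j, φ b0 * y j = φ (b j)) {D : ℕ} {c : MvPolynomial (Fin n) ℤ}
    (hD : c.totalDegree ≤ D) :
    φ (hm b0 b D c) = φ b0 ^ D * eval₂Hom (Int.castRingHom R) y c := by
  unfold hm
  rw [map_sum, coe_eval₂Hom, eval₂_eq', Finset.mul_sum]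
  refine Finset.sum_congr rfl fun m hm' => ?_
  have h1 := sum_le_of_mem hD hm'
  have h3 : φ.comp C = Int.castRingHom R := RingHom.ext_int _ _
  have h4 : φ (C (c.coeff m)) = Int.castRingHom R (c.coeff m) := RingHom.congr_fun h3 _
  unfold mon
  rw [map_mul, map_mul, map_prod, map_pow, h4]
  have h5 : ∏ j, φ (b j ^ m j) = φ b0 ^ (∑ j, m j) * ∏ j, y j ^ m j := by
    rw [← Finset.prod_pow_eq_pow_sum, ← Finset.prod_mul_distrib]
    refine Finset.prod_congr rfl fun j _ => ?_
    rw [map_pow, ← hy j, mul_pow]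
  have h6 : φ b0 ^ D = φ b0 ^ (∑ j, m j) * φ b0 ^ (D - ∑ j, m j) := by
    rw [← pow_add]
    congr 1
    omega
  rw [h5, h6]
  ring

/-- the homogenised polynomial in `Z` -/
noncomputable def Ph (b0 : MvPolynomial (Option (Fin d)) ℤ)
    (b : Fin n → MvPolynomial (Option (Fin d)) ℤ) (D : ℕ)
    (P : Polynomial (MvPolynomial (Fin n) ℤ)) : Polynomial (MvPolynomial (Option (Fin d)) ℤ) :=
  ∑ l ∈ Finset.range (P.natDegree + 1), Polynomial.monomial l (hm b0 b D (P.coeff l))

theorem Ph_coeff (b0 : MvPolynomial (Option (Fin d)) ℤ)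
    (b : Fin n → MvPolynomial (Option (Fin d)) ℤ) (D : ℕ)
    (P : Polynomial (MvPolynomial (Fin n) ℤ)) (l : ℕ) :
    (Ph b0 b D P).coeff l = hm b0 b D (P.coeff l) := by
  unfold Ph
  rw [Polynomial.finsetSum_coeff]
  simp only [Polynomial.coeff_monomial]
  rw [Finset.sum_ite_eq' (Finset.range (P.natDegree + 1)) l]
  split_ifs with h
  · rfl
  · rw [Finset.mem_range, not_lt] at h
    rw [Polynomial.coeff_eq_zero_of_natDegree_lt (by omega), hm_zero]

theorem Ph_natDegree (b0 : MvPolynomial (Option (Fin d)) ℤ)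
    (b : Fin n → MvPolynomial (Option (Fin d)) ℤ) (D : ℕ)
    (P : Polynomial (MvPolynomial (Fin n) ℤ)) : (Ph b0 b D P).natDegree ≤ P.natDegree := by
  rw [Polynomial.natDegree_le_iff_coeff_eq_zero]
  intro l hl
  rw [Ph_coeff, Polynomial.coeff_eq_zero_of_natDegree_lt hl, hm_zero]

theorem map_Ph {R : Type*} [CommRing R] (φ : MvPolynomial (Option (Fin d)) ℤ →+* R)
    {b0 : MvPolynomial (Option (Fin d)) ℤ} {b : Fin n → MvPolynomial (Option (Fin d)) ℤ}
    {y : Fin n → R} (hy : ∀ j, φ b0 * y j = φ (b j)) {D : ℕ}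
    {P : Polynomial (MvPolynomial (Fin n) ℤ)} (hD : ∀ l, (P.coeff l).totalDegree ≤ D) :
    (Ph b0 b D P).map φ = Polynomial.C (φ b0 ^ D) * P.map (eval₂Hom (Int.castRingHom R) y) := by
  ext l
  rw [Polynomial.coeff_map, Ph_coeff, Polynomial.coeff_C_mul, Polynomial.coeff_map,
    map_hm φ hy (hD l)]

theorem eval₂Hom_eval (x : Fin n → ℤ) : eval₂Hom (Int.castRingHom ℤ) x = eval x := by
  have : (Int.castRingHom ℤ) = RingHom.id ℤ := RingHom.ext_int _ _
  rw [this]
  rfl

theorem map_Ph_eval {s : Option (Fin d) → ℤ}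
    {b0 : MvPolynomial (Option (Fin d)) ℤ} {b : Fin n → MvPolynomial (Option (Fin d)) ℤ}
    {x : Fin n → ℤ} (hx : ∀ j, eval s b0 * x j = eval s (b j)) {D : ℕ}
    {P : Polynomial (MvPolynomial (Fin n) ℤ)} (hD : ∀ l, (P.coeff l).totalDegree ≤ D) :
    (Ph b0 b D P).map (eval s) = Polynomial.C (eval s b0 ^ D) * P.map (eval x) := by
  rw [map_Ph (eval s) hx hD, eval₂Hom_eval]

end hom

/-- a factor from a relation modulo `h` -/
theorem chart_factor {n : ℕ} {V : Chart n} (hi : Irr V.h) (hb0 : V.b0 ≠ 0)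
    {P : Polynomial (MvPolynomial (Fin n) ℤ)} {D K : ℕ} (hD : ∀ l, (P.coeff l).totalDegree ≤ D)
    {M M' : Polynomial (MvPolynomial (Option (Fin V.d)) ℤ)}
    {c : MvPolynomial (Option (Fin V.d)) ℤ} (h1 : 1 ≤ M.natDegree) (h2 : M.natDegree ≤ K)
    (h3 : ¬ InP V.h M.leadingCoeff) (h4 : ¬ InP V.h c)
    (h5 : ∀ k, InP V.h ((Polynomial.C c * Ph (rename some V.b0) V.b D P - M * M').coeff k))
    {s : Option (Fin V.d) → ℤ} {x : Fin n → ℤ} (hs : ∀ p, InP V.h p → eval s p = 0)
    (hs0 : eval s (rename some V.b0) ≠ 0)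
    (hx : ∀ j, eval s (rename some V.b0) * x j = eval s (V.b j)) {z : ℤ}
    (hz : (P.derivative.map (eval x)).eval z ≠ 0) : V.Factor P K := by
  intro L _ φ hφ
  have hφ0 : φ (rename some V.b0) ≠ 0 := phi_rename hi hφ hb0
  have hy : ∀ j, φ (rename some V.b0) * (φ (V.b j) / φ (rename some V.b0)) = φ (V.b j) :=
    fun j => mul_div_cancel₀ _ hφ0
  have e1 := map_Ph φ hy hD
  set ψ := (eval₂Hom (Int.castRingHom L) fun j => φ (V.b j) / φ (rename some V.b0)) with hψ
  refine ⟨?_, M.map φ, ?_, ?_, ?_⟩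
  · intro h0
    rw [h0, mul_zero] at e1
    apply hz
    rw [← Polynomial.derivative_map]
    have e2 : (Ph (rename some V.b0) V.b D P).map (eval s) = 0 := by
      ext l
      rw [Polynomial.coeff_map, Polynomial.coeff_zero]
      apply hs
      rw [← hφ, ← Polynomial.coeff_map, e1, Polynomial.coeff_zero]
    have e3 := map_Ph_eval hx hD
    rw [e2] at e3
    have e5 : P.map (eval x) = 0 := by
      refine (mul_eq_zero.1 e3.symm).resolve_left ?_
      exact Polynomial.C_ne_zero.2 (pow_ne_zero _ hs0)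
    rw [e5, Polynomial.derivative_zero, Polynomial.eval_zero]
  · rw [Polynomial.natDegree_map_of_leadingCoeff_ne_zero φ (fun h => h3 ((hφ _).1 h))]
    exact h1
  · rw [Polynomial.natDegree_map_of_leadingCoeff_ne_zero φ (fun h => h3 ((hφ _).1 h))]
    exact h2
  · have e2 : Polynomial.C (φ c) * (Ph (rename some V.b0) V.b D P).map φ = M.map φ * M'.map φ := by
      rw [← sub_eq_zero]
      have e3 : (Polynomial.C c * Ph (rename some V.b0) V.b D P - M * M').map φ = 0 := by
        ext l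
        rw [Polynomial.coeff_map, Polynomial.coeff_zero, hφ]
        exact h5 l
      rw [Polynomial.map_sub, Polynomial.map_mul, Polynomial.map_mul, Polynomial.map_C] at e3
      exact e3
    rw [e1] at e2
    have hc0 : φ c ≠ 0 := fun h => h4 ((hφ _).1 h)
    have hu : φ c * φ (rename some V.b0) ^ D ≠ 0 := mul_ne_zero hc0 (pow_ne_zero _ hφ0)
    refine ⟨M'.map φ * Polynomial.C (φ c * φ (rename some V.b0) ^ D)⁻¹, ?_⟩
    rw [← mul_assoc, ← e2, ← mul_assoc, ← Polynomial.C_mul]
    rw [mul_comm (Polynomial.C _) (P.map ψ), mul_assoc, ← Polynomial.C_mul, mul_inv_cancel₀ hu,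
      Polynomial.C_1, mul_one]

end Pool.Agent.N692.HB.Gdm
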