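import Mathlib
import Pool.Agent.N741.HB.Stm2

/-!
# HB/23: the number of charts

Project HB (helper741); this file by helper692.
-/

set_option autoImplicit false

namespace Pool.Agent.N692.HB.Gdm

open MvPolynomial Pool.Agent.N741.HB

section pol

variable {σ : Type} [Fintype σ]

/-- the exponent vector -/
noncomputable def ex (K : ℕ) (e : σ → Fin (K + 1)) : σ →₀ ℕ :=
  Finsupp.equivFunOnFinite.symm fun i => (e i : ℕ)

theorem ex_apply (K : ℕ) (e : σ → Fin (K + 1)) (i : σ) : ex K e i = (e i : ℕ) := rfl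

theorem ex_inj (K : ℕ) : Function.Injective (ex (σ := σ) K) := by
  intro e e' h
  funext i
  apply Fin.ext
  have := DFunLike.congr_fun h i
  rwa [ex_apply, ex_apply] at this

open Classical in
/-- the polynomial with given coefficients -/
noncomputable def pol (K : ℕ) (c : (σ → Fin (K + 1)) → ℤ) : MvPolynomial σ ℤ :=
  ∑ e, monomial (ex K e) (c e)

theorem sum_le_deg {p : MvPolynomial σ ℤ} {D : ℕ} (hD : p.totalDegree ≤ D)
    {m : σ →₀ ℕ} (hm : m ∈ p.support) : ∑ j, m j ≤ D := by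
  have h1 := (le_totalDegree hm).trans hD
  rwa [Finsupp.sum_fintype _ _ (fun _ => rfl)] at h1

theorem ex_of_mem {p : MvPolynomial σ ℤ} {D : ℕ} (hD : p.totalDegree ≤ D)
    {m : σ →₀ ℕ} (hm : m ∈ p.support) : ∃ e, ex D e = m := by
  have h1 := sum_le_deg hD hm
  refine ⟨fun i => ⟨m i, ?_⟩, ?_⟩
  · have h2 : m i ≤ ∑ j, m j :=
      Finset.single_le_sum (f := fun i => m i) (fun _ _ => Nat.zero_le _) (Finset.mem_univ i)
    omega
  · ext i
    rfl

theorem pol_eq {K : ℕ} {p : MvPolynomial σ ℤ} (hp : p.totalDegree ≤ K) :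
    pol K (fun e => p.coeff (ex K e)) = p := by
  classical
  ext m
  unfold pol
  rw [coeff_sum]
  simp only [coeff_monomial]
  by_cases h : ∃ e, ex K e = m
  · obtain ⟨e, rfl⟩ := h
    rw [Finset.sum_eq_single e]
    · rw [if_pos rfl]
    · intro e' _ he'
      rw [if_neg]
      intro h
      exact he' (ex_inj K h)
    · intro h
      exact absurd (Finset.mem_univ _) h
  · rw [Finset.sum_eq_zero]
    · by_contra hne
      exact h (ex_of_mem hp (mem_support_iff.2 (Ne.symm hne)))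
    · intro e _
      rw [if_neg]
      exact fun h' => h ⟨e, h'⟩

open Classical in
/-- the polynomials of bounded degree with bounded coefficients -/
noncomputable def PS (σ : Type) [Fintype σ] (K B : ℕ) : Finset (MvPolynomial σ ℤ) :=
  (Fintype.piFinset fun _ : σ → Fin (K + 1) => Finset.Icc (-(B : ℤ)) B).image (pol K)

theorem mem_PS {K B : ℕ} {p : MvPolynomial σ ℤ} (hp : p.totalDegree ≤ K)
    (hB : ∀ m, |p.coeff m| ≤ (B : ℤ)) : p ∈ PS σ K B := by
  classical
  unfold PS
  rw [Finset.mem_image]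
  refine ⟨fun e => p.coeff (ex K e), ?_, pol_eq hp⟩
  rw [Fintype.mem_piFinset]
  intro e
  rw [Finset.mem_Icc]
  exact abs_le.1 (hB _)

theorem card_PS (K B : ℕ) : (PS σ K B).card ≤ (2 * B + 1) ^ ((K + 1) ^ Fintype.card σ) := by
  classical
  unfold PS
  refine Finset.card_image_le.trans ?_
  rw [Fintype.card_piFinset, Finset.prod_const, Finset.card_univ, Int.card_Icc, Fintype.card_fun,
    Fintype.card_fin]
  refine Nat.pow_le_pow_left ?_ _
  omega

end pol

/-- the number of monomials -/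
theorem card_support_le {n : ℕ} {c : MvPolynomial (Fin n) ℤ} {D : ℕ} (hD : c.totalDegree ≤ D) :
    c.support.card ≤ (D + 1) ^ n := by
  classical
  have h1 : c.support ⊆ Finset.univ.image (ex (σ := Fin n) D) := by
    intro m hm
    obtain ⟨e, he⟩ := ex_of_mem hD hm
    exact Finset.mem_image.2 ⟨e, Finset.mem_univ _, he⟩
  refine (Finset.card_le_card h1).trans (Finset.card_image_le.trans ?_)
  rw [Finset.card_univ, Fintype.card_fun, Fintype.card_fin, Fintype.card_fin]

section charts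

variable {n : ℕ}

open Classical in
/-- the charts of dimension `d` with bounded data -/
noncomputable def CH (n K B d : ℕ) : Finset (Chart n) :=
  ((Finset.univ : Finset (Fin d → Fin n)) ×ˢ (PS (Option (Fin d)) K B ×ˢ (PS (Fin d) K B ×ˢ
    Fintype.piFinset fun _ : Fin n => PS (Option (Fin d)) K B))).image
      fun q => (⟨d, q.1, q.2.1, q.2.2.1, q.2.2.2⟩ : Chart n)

open Classical in
/-- the charts with bounded data -/
noncomputable def AC (n K B : ℕ) : Finset (Chart n) := (Finset.range (n + 1)).biUnion (CH n K B)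

theorem mem_AC {V : Chart n} {K Y : ℕ} (h : V.Cx K Y) : V ∈ AC n K ((Y + 2) ^ K) := by
  classical
  unfold AC
  rw [Finset.mem_biUnion]
  refine ⟨V.d, Finset.mem_range.2 (by have := h.d; omega), ?_⟩
  unfold CH
  rw [Finset.mem_image]
  refine ⟨(V.ι, V.h, V.b0, V.b), ?_, rfl⟩
  rw [Finset.mem_product, Finset.mem_product, Finset.mem_product]
  refine ⟨Finset.mem_univ _, mem_PS h.hd ?_, mem_PS h.b0d ?_, ?_⟩
  · intro m
    exact_mod_cast h.hc m
  · intro m
    exact_mod_cast h.b0c m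
  · rw [Fintype.mem_piFinset]
    intro j
    refine mem_PS (h.bd j) ?_
    intro m
    exact_mod_cast h.bc j m

theorem card_CH {n K B d : ℕ} (hd : d ≤ n) :
    (CH n K B d).card ≤ (n + 1) ^ n * (2 * B + 1) ^ ((n + 2) * (K + 1) ^ (n + 1)) := by
  classical
  unfold CH
  refine Finset.card_image_le.trans ?_
  rw [Finset.card_product, Finset.card_product, Finset.card_product, Fintype.card_piFinset_const,
    Finset.card_univ, Fintype.card_fun, Fintype.card_fin, Fintype.card_fin]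
  have hA : 0 < 2 * B + 1 := by omega
  have hK : 0 < K + 1 := by omega
  set A := (2 * B + 1) ^ ((K + 1) ^ (n + 1)) with hAd
  have h1 : (PS (Option (Fin d)) K B).card ≤ A := by
    refine (card_PS K B).trans (Nat.pow_le_pow_right hA ?_)
    rw [Fintype.card_option, Fintype.card_fin]
    exact Nat.pow_le_pow_right hK (by omega)
  have h2 : (PS (Fin d) K B).card ≤ A := by
    refine (card_PS K B).trans (Nat.pow_le_pow_right hA ?_)
    rw [Fintype.card_fin]
    exact Nat.pow_le_pow_right hK (by omega)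
  have h3 : n ^ d ≤ (n + 1) ^ n :=
    (Nat.pow_le_pow_left (by omega) d).trans (Nat.pow_le_pow_right (by omega) hd)
  have h4 : (2 * B + 1) ^ ((n + 2) * (K + 1) ^ (n + 1)) = A * (A * A ^ n) := by
    rw [hAd, mul_comm (n + 2), pow_mul]
    ring
  rw [h4]
  exact Nat.mul_le_mul h3 (Nat.mul_le_mul h1 (Nat.mul_le_mul h2 (Nat.pow_le_pow_left h1 n)))

/-- the exponent in the bound for the number of charts -/
def En (n K : ℕ) : ℕ := (n + 1) * (n + 1) + (K + 2) * ((n + 2) * (K + 1) ^ (n + 1))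

theorem card_AC (n K Y : ℕ) : (AC n K ((Y + 2) ^ K)).card ≤ (Y + 2) ^ En n K := by
  classical
  unfold AC
  refine Finset.card_biUnion_le.trans ?_
  refine (Finset.sum_le_card_nsmul _ _ ((n + 1) ^ n * (2 * (Y + 2) ^ K + 1) ^
    ((n + 2) * (K + 1) ^ (n + 1))) fun d hd => card_CH (by
      have := Finset.mem_range.1 hd; omega)).trans ?_
  rw [Finset.card_range, smul_eq_mul]
  have h1 : n + 1 ≤ (Y + 2) ^ (n + 1) :=
    Nat.lt_two_pow_self.le.trans (Nat.pow_le_pow_left (by omega) _)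
  have h2 : (n + 1) * (n + 1) ^ n ≤ (Y + 2) ^ ((n + 1) * (n + 1)) := by
    calc (n + 1) * (n + 1) ^ n = (n + 1) ^ (n + 1) := by ring
      _ ≤ ((Y + 2) ^ (n + 1)) ^ (n + 1) := Nat.pow_le_pow_left h1 _
      _ = (Y + 2) ^ ((n + 1) * (n + 1)) := by rw [← pow_mul]
  have h3 : 2 * (Y + 2) ^ K + 1 ≤ (Y + 2) ^ (K + 2) := by
    have h4 : 1 ≤ (Y + 2) ^ K := Nat.one_le_pow _ _ (by omega)
    have h5 : (Y + 2) ^ (K + 2) = (Y + 2) ^ K * ((Y + 2) * (Y + 2)) := by ring
    have h6 : (Y + 2) ^ K * 4 ≤ (Y + 2) ^ K * ((Y + 2) * (Y + 2)) :=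
      Nat.mul_le_mul_left _ (by nlinarith)
    omega
  have h4 : (2 * (Y + 2) ^ K + 1) ^ ((n + 2) * (K + 1) ^ (n + 1)) ≤
      (Y + 2) ^ ((K + 2) * ((n + 2) * (K + 1) ^ (n + 1))) := by
    rw [pow_mul (Y + 2) (K + 2)]
    exact Nat.pow_le_pow_left h3 _
  unfold En
  rw [pow_add (Y + 2), ← mul_assoc]
  exact Nat.mul_le_mul h2 h4

end charts

theorem log_pow_le (y E : ℕ) : Nat.log 2 ((y + 2) ^ E) ≤ E * (Nat.log 2 (y + 2) + 1) := by
  have h1 : y + 2 ≤ 2 ^ (Nat.log 2 (y + 2) + 1) := (Nat.lt_pow_succ_log_self (by norm_num) _).le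
  calc Nat.log 2 ((y + 2) ^ E) ≤ Nat.log 2 ((2 ^ (Nat.log 2 (y + 2) + 1)) ^ E) :=
        Nat.log_mono_right (Nat.pow_le_pow_left h1 E)
    _ = E * (Nat.log 2 (y + 2) + 1) := by
        rw [← pow_mul, Nat.log_pow (by norm_num), mul_comm]

end Pool.Agent.N692.HB.Gdm
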