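import Mathlib
import Pool.Agent.N741.HB.Core
import Pool.Agent.N692.HB.Gdm1
import Pool.Agent.N692.HB.Gdm2

/-!
# HB/23: the chart of a generic set

Project HB (helper741); this file by helper692.
-/

set_option autoImplicit false

namespace Pool.Agent.N692.HB.Gdm

open Filter MvPolynomial Pool.Agent.N741.HB Pool.Agent.Y902.GN

section sizes

variable {n d : ℕ}

theorem Sz_mon {w D : ℕ} {b0 : MvPolynomial (Option (Fin d)) ℤ}
    {b : Fin n → MvPolynomial (Option (Fin d)) ℤ} (hb0 : Sz w b0) (hb : ∀ j, Sz w (b j))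
    {e : Fin n → ℕ} (he : ∑ j, e j ≤ D) : Sz (n * (D * w) + D * w) (mon b0 b e D) := by
  unfold mon
  have h1 : Sz ((Finset.univ : Finset (Fin n)).card * (D * w)) (∏ j : Fin n, b j ^ e j) := by
    refine Sz.prod fun j _ => ((hb j).pow (e j)).mono (Nat.mul_le_mul_right _ ?_)
    exact (Finset.single_le_sum (f := e) (fun _ _ => Nat.zero_le _) (Finset.mem_univ j)).trans he
  rw [Finset.card_univ, Fintype.card_fin] at h1
  exact h1.mul ((hb0.pow _).mono (Nat.mul_le_mul_right _ (Nat.sub_le _ _)))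

theorem Sz_hm {w D F : ℕ} {b0 : MvPolynomial (Option (Fin d)) ℤ}
    {b : Fin n → MvPolynomial (Option (Fin d)) ℤ} (hb0 : Sz w b0) (hb : ∀ j, Sz w (b j))
    {c : MvPolynomial (Fin n) ℤ} (hD : c.totalDegree ≤ D) (hc : ∀ m, |c.coeff m| ≤ 2 ^ F) :
    Sz (F + (n * (D * w) + D * w) + (D + 1) ^ n) (hm b0 b D c) := by
  unfold hm
  refine Sz.mono (Sz.sum (w := F + (n * (D * w) + D * w)) fun m hm' => ?_)
    (Nat.add_le_add_left (card_support_le hD) _)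
  exact (Sz.C (hc m)).mul (Sz_mon hb0 hb (sum_le_of_mem hD hm'))

end sizes

section

variable {Y : ℕ → ℕ} {n : ℕ} {Om : ℕ → Finset (Fin n → ℤ)}

theorem few_sum (hY : ∀ m : ℕ, ∀ᶠ ν in (Uf : Filter ℕ), m ≤ Y ν) {ι : Type*} (s : Finset ι)
    {w : ι → ℕ → ℕ} (h : ∀ i ∈ s, Few Y (w i)) : Few Y (fun ν => ∑ i ∈ s, w i ν) := by
  classical
  induction s using Finset.induction_on with
  | empty => simpa using Few.const hY 0
  | insert a s ha ih =>
    refine ((h a (Finset.mem_insert_self _ _)).add hY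
      (ih fun i hi => h i (Finset.mem_insert_of_mem hi))).mono
        (Filter.Eventually.of_forall fun ν => ?_)
    rw [Finset.sum_insert ha]

theorem iota_inj (hB : Big Y Om) (G : GD Y Om) : Function.Injective G.ι := by
  intro b b' hbb
  by_contra hne
  refine G.small (fun _ => X b - X b') ((PB.X b).sub (PB.X b'))
    (Filter.Eventually.of_forall fun ν h => hne (X_injective (sub_eq_zero.1 h)))
    (hB.mono (Filter.Eventually.of_forall fun ν t ht => ?_))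
  rw [Finset.mem_filter]
  refine ⟨ht, ?_⟩
  rw [map_sub, eval_X, eval_X, hbb, sub_self]

end

/-- **the chart of a large set** -/
theorem gen_part (h1 : S_gd) (h2 : S_irr) (h3 : S_relP) (h4 : S_van) {n q : ℕ} {Y : ℕ → ℕ}
    (hY : ∀ m : ℕ, ∀ᶠ ν in (Uf : Filter ℕ), m ≤ Y ν)
    {P : ℕ → Fin q → Polynomial (MvPolynomial (Fin n) ℤ)} {D F : ℕ → ℕ} (hD : Few Y D)
    (hF : Few Y F)
    (hP : ∀ᶠ ν in (Uf : Filter ℕ), ∀ k, (P ν k).natDegree ≤ D ν ∧
      ∀ l, ((P ν k).coeff l).totalDegree ≤ D ν ∧ ∀ m, |((P ν k).coeff l).coeff m| ≤ 2 ^ F ν)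
    {T : ℕ → Finset (Fin n → ℤ)} (hT : Big Y T) (hbd : Bdd Y T)
    {z : ℕ → (Fin n → ℤ) → Fin q → ℤ}
    (hz : ∀ᶠ ν in (Uf : Filter ℕ), ∀ t ∈ T ν, ∀ k, |z ν t k| ≤ 2 ^ F ν ∧
      ((P ν k).map (eval t)).eval (z ν t k) = 0 ∧
      ((P ν k).derivative.map (eval t)).eval (z ν t k) ≠ 0) :
    ∃ (C : ℕ) (V : ℕ → Chart n) (Om : ℕ → Finset (Fin n → ℤ)),
      (∀ᶠ ν in (Uf : Filter ℕ), Om ν ⊆ T ν) ∧ Big Y Om ∧
      ∀ᶠ ν in (Uf : Filter ℕ), (V ν).Cx C (Y ν) ∧ (∀ k, (V ν).Factor (P ν k) C) ∧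
        ∀ t ∈ Om ν, (V ν).Pt t := by
  classical
  obtain ⟨Om1, hO1, hG1⟩ := Gen.ex hT
  have hbd1 : Bdd Y Om1 := by
    filter_upwards [hbd, hO1] with ν a b t ht
    exact a t (b ht)
  obtain ⟨G⟩ := h1 Y n Om1 hY hG1 hbd1
  have hB1 : Big Y Om1 := hG1.1
  -- sizes
  obtain ⟨w0, hw0, hs0⟩ :=
    ((PB.mild hY G.b0PB).rename hY (some : Fin G.d → Option (Fin G.d))).Sz hY
  have hbm : ∀ j, ∃ w : ℕ → ℕ, Few Y w ∧ ∀ᶠ ν in (Uf : Filter ℕ), Sz (w ν) (G.b j ν) :=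
    fun j => (PB.mild hY (G.bPB j)).Sz hY
  choose wj hwj hsj using hbm
  obtain ⟨w1, hw1⟩ : ∃ w1 : ℕ → ℕ, ∀ ν, w1 ν = w0 ν + ∑ j, wj j ν := ⟨_, fun _ => rfl⟩
  have fw1 : Few Y w1 := (hw0.add hY (few_sum hY Finset.univ fun j _ => hwj j)).mono
    (Filter.Eventually.of_forall fun ν => (hw1 ν).le)
  have hs1 : ∀ᶠ ν in (Uf : Filter ℕ), Sz (w1 ν) (rename (some : Fin G.d → Option (Fin G.d))
      (G.b0 ν)) ∧ ∀ j, Sz (w1 ν) (G.b j ν) := by
    filter_upwards [hs0, Filter.eventually_all.2 hsj] with ν a b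
    rw [hw1]
    exact ⟨a.mono (Nat.le_add_right _ _), fun j => (b j).mono
      ((Finset.single_le_sum (f := fun j => wj j ν) (fun _ _ => Nat.zero_le _)
        (Finset.mem_univ j)).trans (Nat.le_add_left _ _))⟩
  -- the homogenised polynomials
  obtain ⟨Q, hQ⟩ : ∃ Q : ℕ → Fin q → Polynomial (MvPolynomial (Option (Fin G.d)) ℤ),
    ∀ ν k, Q ν k = Ph (rename some (G.b0 ν)) (fun j => G.b j ν) (D ν) (P ν k) :=
    ⟨_, fun _ _ => rfl⟩
  obtain ⟨w, hw⟩ : ∃ w : ℕ → ℕ, ∀ ν, w ν = D ν + (F ν + (n * (D ν * w1 ν) + D ν * w1 ν) +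
    (D ν + 1) ^ n) := ⟨_, fun _ => rfl⟩
  have fw : Few Y w := by
    refine Few.mono (g := fun ν => D ν + (F ν + (n * (D ν * w1 ν) + D ν * w1 ν) +
      (D ν + 1) ^ n)) ?_ (Filter.Eventually.of_forall fun ν => (hw ν).le)
    have a1 : Few Y (fun ν => D ν * w1 ν) := hD.mul fw1
    have a2 : Few Y (fun ν => n * (D ν * w1 ν)) := (Few.const hY n).mul a1
    have a3 : Few Y (fun ν => (D ν + 1) ^ n) := (hD.add hY (Few.const hY 1)).pow n
    exact hD.add hY ((hF.add hY (a2.add hY a1)).add hY a3)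
  have hQev : ∀ᶠ ν in (Uf : Filter ℕ), ∀ t ∈ Om1 ν, ∀ k, (Q ν k).map (eval (G.sp ν t)) =
      Polynomial.C (eval (fun b => t (G.ι b)) (G.b0 ν) ^ D ν) * (P ν k).map (eval t) := by
    filter_upwards [G.ev_b, hP] with ν a b t ht k
    rw [hQ, map_Ph_eval (x := t) (fun j => by rw [G.eval_b0]; exact a t ht j)
      (fun l => ((b k).2 l).1), G.eval_b0]
  have hQder : ∀ᶠ ν in (Uf : Filter ℕ), ∀ t ∈ Om1 ν, ∀ k,
      ((Q ν k).derivative.map (eval (G.sp ν t))).eval (z ν t k) =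
      eval (fun b => t (G.ι b)) (G.b0 ν) ^ D ν *
        ((P ν k).derivative.map (eval t)).eval (z ν t k) := by
    filter_upwards [hQev] with ν a t ht k
    rw [← Polynomial.derivative_map, a t ht k, Polynomial.derivative_C_mul, Polynomial.eval_mul,
      Polynomial.eval_C, Polynomial.derivative_map]
  have hK : ∀ k : Fin q, ∃ K : ℕ, ∀ᶠ ν in (Uf : Filter ℕ),
      ∃ (M M' : Polynomial (MvPolynomial (Option (Fin G.d)) ℤ))
        (c : MvPolynomial (Option (Fin G.d)) ℤ), 1 ≤ M.natDegree ∧ M.natDegree ≤ K ∧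
        ¬ InP (G.h ν) M.leadingCoeff ∧ ¬ InP (G.h ν) c ∧
        ∀ l, InP (G.h ν) ((Polynomial.C c * Q ν k - M * M').coeff l) := by
    intro k
    refine h3 Y n Om1 hY hB1 hbd1 G (fun ν => Q ν k) w (fun ν t => z ν t k) fw ?_ ?_ ?_
    · filter_upwards [hs1, hP] with ν a b
      refine ⟨?_, fun l => ?_⟩
      · rw [hQ, hw]
        exact (Ph_natDegree _ _ _ _).trans ((b k).1.trans (Nat.le_add_right _ _))
      · rw [hQ, hw, Ph_coeff]
        exact (Sz_hm a.1 a.2 ((b k).2 l).1 ((b k).2 l).2).mono (Nat.le_add_left _ _)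
    · filter_upwards [hQev, hz, hO1] with ν a b c t ht
      have b1 := b t (c ht) k
      refine ⟨b1.1.trans (pow_le_pow_right₀ (by norm_num) ?_), ?_⟩
      · rw [hw]
        omega
      · rw [a t ht k, Polynomial.eval_mul, b1.2.1, mul_zero]
    · intro hcon
      refine G.small G.b0 G.b0PB G.b0ne (hcon.mono ?_)
      filter_upwards [hQder, hz, hO1] with ν a b c t ht
      obtain ⟨ht1, ht2⟩ := Finset.mem_filter.1 ht
      refine Finset.mem_filter.2 ⟨ht1, ?_⟩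
      rw [a t ht1 k] at ht2
      by_contra hne
      exact mul_ne_zero (pow_ne_zero _ hne) (b t (c ht1) k).2.2 ht2
  choose K hK using hK
  -- the constant
  obtain ⟨c1, hc1⟩ := G.hPB
  obtain ⟨c2, hc2⟩ := G.b0PB
  choose c3 hc3 using G.bPB
  obtain ⟨Om2, hO2, hB2, hgood⟩ := G.good hY h4 (Filter.Eventually.of_forall fun _ => subset_rfl)
    hB1
  have hc3' : ∀ j, c3 j ≤ ∑ j, c3 j := fun j =>
    Finset.single_le_sum (f := c3) (fun _ _ => Nat.zero_le _) (Finset.mem_univ j)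
  have hK' : ∀ k, K k ≤ ∑ k, K k := fun k =>
    Finset.single_le_sum (f := K) (fun _ _ => Nat.zero_le _) (Finset.mem_univ k)
  have hdn : G.d ≤ n := by
    have := Fintype.card_le_of_injective G.ι (iota_inj hB1 G)
    rwa [Fintype.card_fin, Fintype.card_fin] at this
  refine ⟨c1 + c2 + ∑ j, c3 j + ∑ k, K k,
    fun ν => ⟨G.d, G.ι, G.h ν, G.b0 ν, fun j => G.b j ν⟩, Om2, ?_, hB2, ?_⟩
  · filter_upwards [hO1, hO2] with ν a b
    exact b.trans a
  filter_upwards [hc1, hc2, Filter.eventually_all.2 hc3, Filter.eventually_all.2 hK,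
    h2 Y n Om1 hY hB1 hbd1 G, G.b0ne, hgood, hB2.nonempty, hO2, hO1, G.ev_h, G.ev_b, hP, hz]
    with ν g1 g2 g3 g4 g5 g6 g7 g8 g9 g10 g11 g12 g13 g14
  have hpw : ∀ {c : ℕ}, c ≤ c1 + c2 + ∑ j, c3 j + ∑ k, K k →
      ((Y ν : ℤ) + 2) ^ c ≤ ((Y ν : ℤ) + 2) ^ (c1 + c2 + ∑ j, c3 j + ∑ k, K k) :=
    fun h => pow_le_pow_right₀ (by omega) h
  have e1 : c1 ≤ c1 + c2 + ∑ j, c3 j + ∑ k, K k := by omega
  have e2 : c2 ≤ c1 + c2 + ∑ j, c3 j + ∑ k, K k := by omega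
  have e3 : ∀ j, c3 j ≤ c1 + c2 + ∑ j, c3 j + ∑ k, K k := fun j => by have := hc3' j; omega
  have e4 : ∀ k, K k ≤ c1 + c2 + ∑ j, c3 j + ∑ k, K k := fun k => by have := hK' k; omega
  refine ⟨⟨hdn, g5, g6, g1.1.trans e1, g2.1.trans e2, fun j => (g3 j).1.trans (e3 j),
    fun m => (g1.2 m).trans (hpw e1), fun m => (g2.2 m).trans (hpw e2),
    fun j m => ((g3 j).2 m).trans (hpw (e3 j))⟩, fun k => ?_, fun t ht => ?_⟩
  · obtain ⟨t, ht⟩ := g8
    obtain ⟨M, M', c, m1, m2, m3, m4, m5⟩ := g4 k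
    have ht1 := g9 ht
    refine chart_factor (V := ⟨G.d, G.ι, G.h ν, G.b0 ν, fun j => G.b j ν⟩) g5 g6 (D := D ν)
      (fun l => ((g13 k).2 l).1) m1 (m2.trans (e4 k)) m3 m4 (M' := M') (fun l => ?_)
      (s := G.sp ν t) (x := t) (g7 t ht).2 ?_ (fun j => ?_) (z := z ν t k) (g14 t (g10 ht1) k).2.2
    · have := m5 l
      rw [hQ] at this
      exact this
    · show eval (G.sp ν t) (rename some (G.b0 ν)) ≠ 0
      rw [G.eval_b0]
      exact (g7 t ht).1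
    · show eval (G.sp ν t) (rename some (G.b0 ν)) * t j = eval (G.sp ν t) (G.b j ν)
      rw [G.eval_b0]
      exact g12 t ht1 j
  · have ht1 := g9 ht
    exact ⟨(g7 t ht).1, G.θ ν t, g11 t ht1, g12 t ht1⟩

end Pool.Agent.N692.HB.Gdm
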