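import Mathlib
import Pool.Agent.N692.HB.Gdm3

/-!
# HB/23: structure theorem for finite covers

Project HB (helper741); this file by helper692. The unramified points on fibre products of finite
covers of affine space lie over few subvarieties of bounded degree over which the covers have
components of bounded degree.
-/

set_option autoImplicit false

namespace Pool.Agent.N692.HB.Gdm

open Filter MvPolynomial Pool.Agent.N741.HB Pool.Agent.Y902.GN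

/-- the admissible points -/
def Adm (n q : ℕ) (δ : ℝ) (Y : ℕ) (P : Fin q → Polynomial (MvPolynomial (Fin n) ℤ))
    (x : Fin n → ℤ) (z : Fin q → ℤ) : Prop :=
  (∀ j, 1 ≤ x j ∧ x j ≤ (Y : ℤ)) ∧ ∀ k, ((|z k| : ℤ) : ℝ) ≤ Real.exp ((Y : ℝ) ^ δ) ∧
    ((P k).map (eval x)).eval (z k) = 0 ∧ ((P k).derivative.map (eval x)).eval (z k) ≠ 0

theorem root_bd {Y ν : ℕ} (h : Y ≤ ν ^ (ν + 1)) : (Y : ℝ) ^ (1 / ((ν : ℝ) + 1)) ≤ (ν : ℝ) := by
  have h1 : (Y : ℝ) ≤ (ν : ℝ) ^ (ν + 1) := by exact_mod_cast h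
  have h2 : (1 / ((ν : ℝ) + 1)) = ((ν + 1 : ℕ) : ℝ)⁻¹ := by
    rw [one_div]
    push_cast
    rfl
  rw [h2]
  calc (Y : ℝ) ^ ((ν + 1 : ℕ) : ℝ)⁻¹ ≤ ((ν : ℝ) ^ (ν + 1)) ^ ((ν + 1 : ℕ) : ℝ)⁻¹ :=
        Real.rpow_le_rpow (by positivity) h1 (by positivity)
    _ = (ν : ℝ) := Real.pow_rpow_inv_natCast (by positivity) (by omega)

theorem few_le_rpow {Y f : ℕ → ℕ} (hf : Few Y f) {c : ℝ} (hc : 0 < c)
    (h1 : ∀ᶠ ν in (Uf : Filter ℕ), 1 ≤ Y ν) :
    ∀ᶠ ν in (Uf : Filter ℕ), (f ν : ℝ) ≤ (Y ν : ℝ) ^ c := by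
  obtain ⟨m, hm⟩ := exists_nat_ge (1 / c)
  filter_upwards [hf (m + 1), h1] with ν a b
  have y1 : (1 : ℝ) ≤ (Y ν : ℝ) := by exact_mod_cast b
  have a1 : (f ν : ℝ) ^ (m + 1) ≤ (Y ν : ℝ) := by exact_mod_cast a
  calc (f ν : ℝ) = ((f ν : ℝ) ^ (m + 1)) ^ ((m + 1 : ℕ) : ℝ)⁻¹ :=
        (Real.pow_rpow_inv_natCast (by positivity) (by omega)).symm
    _ ≤ (Y ν : ℝ) ^ ((m + 1 : ℕ) : ℝ)⁻¹ := Real.rpow_le_rpow (by positivity) a1 (by positivity)
    _ ≤ (Y ν : ℝ) ^ c := by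
        apply Real.rpow_le_rpow_of_exponent_le y1
        rw [inv_le_comm₀ (by positivity) hc]
        push_cast
        rw [one_div] at hm
        linarith

theorem not_big_few {α : Type*} {Y f : ℕ → ℕ} {A : ℕ → Finset α} (hA : Big Y A) (hf : Few Y f)
    (h : ∀ᶠ ν in (Uf : Filter ℕ), (A ν).card ≤ f ν) : False := by
  obtain ⟨m, hm⟩ := hA
  obtain ⟨ν, a, b, c⟩ := (hm.and (h.and (hf m))).exists
  have := Nat.pow_le_pow_left b m
  omega

/-- **Structure theorem for finite covers.** -/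
theorem gdm (h1 : S_gd) (h2 : S_irr) (h3 : S_relP) (h4 : S_van) (h5 : S_cover) : S_gdm := by
  classical
  intro n q ε hε
  by_contra hcon
  push Not at hcon
  have hseq := fun ν : ℕ => hcon ν (1 / ((ν : ℝ) + 1)) (by positivity)
  choose Y hY1 P hP hbad using hseq
  have hbad' : ∀ (ν r : ℕ) (V : Fin r → Chart n), (r : ℝ) ≤ (Y ν : ℝ) ^ ε →
      (∀ i, (V i).Cx ν (Y ν) ∧ ∀ k, (V i).Factor (P ν k) ν) →
      ∃ (x : Fin n → ℤ) (z : Fin q → ℤ), Adm n q (1 / ((ν : ℝ) + 1)) (Y ν) (P ν) x z ∧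
        ∀ i, ¬ (V i).Pt x := by
    intro ν r V hr hV
    obtain ⟨x, z, a, b, c⟩ := hbad ν r V hr hV
    exact ⟨x, z, ⟨a, b⟩, c⟩
  clear hbad
  have hY1' : ∀ ν, (1 : ℝ) ≤ (Y ν : ℝ) := fun ν => by exact_mod_cast hY1 ν
  have hYε : ∀ (ν : ℕ) (c : ℝ), 0 ≤ c → 1 ≤ (Y ν : ℝ) ^ c := fun ν c hc =>
    Real.one_le_rpow (hY1' ν) hc
  -- the degrees are positive
  have hpos : ∀ ν k, 1 ≤ (P ν k).natDegree := by
    intro ν k
    obtain ⟨x, z, ⟨_, b⟩, _⟩ := hbad' ν 0 Fin.elim0 (by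
      have := hYε ν ε hε.le
      push_cast
      linarith) (fun i => i.elim0)
    exact natDegree_pos (b k).2.2
  -- `Y` is large
  have hYν : ∀ ν, 1 ≤ ν → ν ^ (ν + 1) < Y ν := by
    intro ν hν
    by_contra hle
    push Not at hle
    have hdeg : ∀ k, (P ν k).natDegree ≤ ν := fun k => by
      have := (hP ν k).1.trans (root_bd hle)
      exact_mod_cast this
    obtain ⟨x, z, _, b⟩ := hbad' ν 1 (fun _ => whole n) (by
      have := hYε ν ε hε.le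
      push_cast
      exact this) (fun i => ⟨whole_cx hν _, fun k => whole_factor (hpos ν k) (hdeg k)⟩)
    exact b 0 (whole_pt x)
  have hY : ∀ m : ℕ, ∀ᶠ ν in (Uf : Filter ℕ), m ≤ Y ν := by
    intro m
    filter_upwards [ev_ge (m + 1)] with ν hν
    have a1 := hYν ν (by omega)
    have a2 : ν ≤ ν ^ (ν + 1) := Nat.le_self_pow (by omega) _
    omega
  have fewν : Few Y (fun ν => ν) := by
    intro m
    filter_upwards [ev_ge (m + 1)] with ν hν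
    have a1 := hYν ν (by omega)
    have a2 : ν ^ m ≤ ν ^ (ν + 1) := Nat.pow_le_pow_right (by omega) (by omega)
    omega
  -- the bounds for `P` and `z`
  obtain ⟨D, hD⟩ : ∃ D : ℕ → ℕ, ∀ ν, D ν =
    ⌊((1 : ℕ) : ℝ) * (Y ν : ℝ) ^ (1 / ((ν : ℝ) + 1))⌋₊ + 1 := ⟨_, fun _ => rfl⟩
  obtain ⟨F, hF⟩ : ∃ F : ℕ → ℕ, ∀ ν, F ν =
    ⌊((2 : ℕ) : ℝ) * (Y ν : ℝ) ^ (1 / ((ν : ℝ) + 1))⌋₊ + 1 := ⟨_, fun _ => rfl⟩
  have fewD : Few Y D := (few_rpow hY 1).mono (Filter.Eventually.of_forall fun ν => (hD ν).le)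
  have fewF : Few Y F := (few_rpow hY 2).mono (Filter.Eventually.of_forall fun ν => (hF ν).le)
  have hDb : ∀ (ν m : ℕ), (m : ℝ) ≤ (Y ν : ℝ) ^ (1 / ((ν : ℝ) + 1)) → m ≤ D ν := by
    intro ν m hm
    rw [hD]
    have := Nat.le_floor (show (m : ℝ) ≤ ((1 : ℕ) : ℝ) * (Y ν : ℝ) ^ (1 / ((ν : ℝ) + 1)) by
      push_cast
      rwa [one_mul])
    omega
  have hFb : ∀ (ν : ℕ) (a : ℤ), ((|a| : ℤ) : ℝ) ≤
      Real.exp ((Y ν : ℝ) ^ (1 / ((ν : ℝ) + 1))) → |a| ≤ 2 ^ F ν := by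
    intro ν a ha
    have := ha.trans (exp_le_two_pow (y := (Y ν : ℝ) ^ (1 / ((ν : ℝ) + 1))) (by positivity))
    rw [← hF] at this
    exact_mod_cast this
  have hP' : ∀ᶠ ν in (Uf : Filter ℕ), ∀ k, (P ν k).natDegree ≤ D ν ∧
      ∀ l, ((P ν k).coeff l).totalDegree ≤ D ν ∧ ∀ m, |((P ν k).coeff l).coeff m| ≤ 2 ^ F ν :=
    Filter.Eventually.of_forall fun ν k => ⟨hDb ν _ (hP ν k).1, fun l =>
      ⟨hDb ν _ ((hP ν k).2 l).1, fun m => hFb ν _ (((hP ν k).2 l).2 m)⟩⟩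
  -- the admissible points
  obtain ⟨S, hS⟩ : ∃ S : ℕ → Finset (Fin n → ℤ), ∀ ν, S ν =
    (Fintype.piFinset fun _ : Fin n => Finset.Icc (1 : ℤ) (Y ν)).filter fun x =>
      ∃ z, Adm n q (1 / ((ν : ℝ) + 1)) (Y ν) (P ν) x z := ⟨_, fun _ => rfl⟩
  have hSm : ∀ ν x, x ∈ S ν ↔ ∃ z, Adm n q (1 / ((ν : ℝ) + 1)) (Y ν) (P ν) x z := by
    intro ν x
    rw [hS, Finset.mem_filter]
    constructor
    · exact fun h => h.2
    · intro h
      refine ⟨?_, h⟩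
      obtain ⟨z, a, _⟩ := h
      rw [Fintype.mem_piFinset]
      intro j
      rw [Finset.mem_Icc]
      exact a j
  have hScard : ∀ ν, (S ν).card ≤ (Y ν + 2) ^ n := by
    intro ν
    rw [hS]
    refine (Finset.card_filter_le _ _).trans ?_
    rw [Fintype.card_piFinset_const, Int.card_Icc]
    refine Nat.pow_le_pow_left ?_ _
    omega
  choose! z hz using fun ν x (h : x ∈ S ν) => (hSm ν x).1 h
  -- the complexity
  obtain ⟨K, hK⟩ : ∃ K : ℕ → ℕ, ∀ ν, K ν = Nat.findGreatest (fun k => En n k ≤ ν) ν :=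
    ⟨_, fun _ => rfl⟩
  have hKle : ∀ ν, K ν ≤ ν := fun ν => by
    rw [hK]
    exact Nat.findGreatest_le ν
  have hKE : ∀ᶠ ν in (Uf : Filter ℕ), En n (K ν) ≤ ν := by
    filter_upwards [ev_ge (En n 0)] with ν hν
    rw [hK]
    exact Nat.findGreatest_spec (P := fun k => En n k ≤ ν) (Nat.zero_le ν) hν
  have hKC : ∀ C : ℕ, ∀ᶠ ν in (Uf : Filter ℕ), C ≤ K ν := by
    intro C
    filter_upwards [ev_ge (C + En n C)] with ν hν
    rw [hK]
    exact Nat.le_findGreatest (P := fun k => En n k ≤ ν) (by omega) (by omega)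
  -- the family
  obtain ⟨good, hgood⟩ : ∃ good : ℕ → Chart n → Prop, ∀ ν V, good ν V ↔
    (V.Cx (K ν) (Y ν) ∧ ∀ k, V.Factor (P ν k) (K ν)) := ⟨_, fun _ _ => Iff.rfl⟩
  obtain ⟨Fm, hFm⟩ : ∃ Fm : ℕ → Finset (Finset (Fin n → ℤ)), ∀ ν, Fm ν =
    ((AC n (K ν) ((Y ν + 2) ^ K ν)).filter fun V => good ν V).image
      fun V => (S ν).filter fun x => V.Pt x := ⟨_, fun _ => rfl⟩
  have hFmm : ∀ ν V, good ν V → ((S ν).filter fun x => V.Pt x) ∈ Fm ν := by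
    intro ν V h
    rw [hFm, Finset.mem_image]
    exact ⟨V, Finset.mem_filter.2 ⟨mem_AC ((hgood ν V).1 h).1, h⟩, rfl⟩
  have hFm' : ∀ ν, ∀ A ∈ Fm ν, ∃ V, good ν V ∧ A = (S ν).filter fun x => V.Pt x := by
    intro ν A hA
    rw [hFm, Finset.mem_image] at hA
    obtain ⟨V, hV, rfl⟩ := hA
    exact ⟨V, (Finset.mem_filter.1 hV).2, rfl⟩
  obtain ⟨L, hL⟩ : ∃ L : ℕ → ℕ, ∀ ν, L ν = Nat.log 2 (Fm ν).card + 2 := ⟨_, fun _ => rfl⟩
  have fewL : Few Y L := by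
    refine Few.mono (g := fun ν => ν * (Nat.log 2 (Y ν + 2) + 1) + 2)
      ((fewν.mul (few_log hY)).add hY (Few.const hY 2)) ?_
    filter_upwards [hKE] with ν a
    rw [hL]
    have b : (Fm ν).card ≤ (Y ν + 2) ^ En n (K ν) := by
      rw [hFm]
      exact Finset.card_image_le.trans ((Finset.card_filter_le _ _).trans (card_AC _ _ _))
    have c : Nat.log 2 (Fm ν).card ≤ ν * (Nat.log 2 (Y ν + 2) + 1) :=
      (Nat.log_mono_right b).trans ((log_pow_le _ _).trans (Nat.mul_le_mul_right _ a))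
    omega
  obtain ⟨LS, hLS⟩ : ∃ LS : ℕ → ℕ, ∀ ν, LS ν = Nat.log 2 (S ν).card + 1 := ⟨_, fun _ => rfl⟩
  have fewLS : Few Y LS := by
    refine Few.mono (g := fun ν => n * (Nat.log 2 (Y ν + 2) + 1) + 1)
      (((Few.const hY n).mul (few_log hY)).add hY (Few.const hY 1))
      (Filter.Eventually.of_forall fun ν => ?_)
    rw [hLS]
    have c : Nat.log 2 (S ν).card ≤ n * (Nat.log 2 (Y ν + 2) + 1) :=
      (Nat.log_mono_right (hScard ν)).trans (log_pow_le _ _)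
    omega
  -- the covering lemma
  obtain ⟨M, hM⟩ : ∃ M : ℕ → ℕ, ∀ ν, M ν = ⌊(Y ν : ℝ) ^ (ε / 2)⌋₊ := ⟨_, fun _ => rfl⟩
  have hM1 : ∀ ν, 1 ≤ M ν := fun ν => by
    rw [hM]
    exact Nat.le_floor (by exact_mod_cast hYε ν (ε / 2) (by positivity))
  have hMle : ∀ ν, (M ν : ℝ) ≤ (Y ν : ℝ) ^ (ε / 2) := fun ν => by
    rw [hM]
    exact Nat.floor_le (by positivity)
  have hev1 : ∀ᶠ ν in (Uf : Filter ℕ), 1 ≤ Y ν := Filter.Eventually.of_forall hY1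
  have hcov : ∀ᶠ ν in (Uf : Filter ℕ), ∃ T : Finset (Fin n → ℤ), T ⊆ S ν ∧
      M ν ≤ T.card * L ν ∧ ∀ A ∈ Fm ν, (T ∩ A).card ≤ L ν := by
    filter_upwards [hKC 1, few_le_rpow fewLS (c := ε / 2) (by positivity) hev1] with ν a b
    obtain ⟨T, t1, t2, t3⟩ := h5 (Fin n → ℤ) (S ν) (Fm ν) (M ν) (hM1 ν) (by
      intro x hx
      refine ⟨_, hFmm ν (pnt x) ?_, ?_⟩
      · rw [hgood]
        have hx' := hz ν x hx
        exact ⟨pnt_cx a hx'.1, fun k => pnt_factor a (hx'.2 k).2.1 (hx'.2 k).2.2⟩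
      · exact Finset.mem_filter.2 ⟨hx, pnt_pt x⟩) (by
      intro W hW hWc hsub
      have : Nonempty (Chart n) := ⟨whole n⟩
      choose! V hV1 hV2 using fun A (hA : A ∈ W) => hFm' ν A (hW hA)
      have hr : (W.card : ℝ) ≤ (Y ν : ℝ) ^ ε := by
        rw [← hLS] at hWc
        calc (W.card : ℝ) ≤ ((M ν * LS ν : ℕ) : ℝ) := by exact_mod_cast hWc
          _ = (M ν : ℝ) * (LS ν : ℝ) := by push_cast; ring
          _ ≤ (Y ν : ℝ) ^ (ε / 2) * (Y ν : ℝ) ^ (ε / 2) :=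
              mul_le_mul (hMle ν) b (by positivity) (by positivity)
          _ = (Y ν : ℝ) ^ ε := by
              rw [← Real.rpow_add (by have := hY1' ν; linarith)]
              congr 1
              ring
      obtain ⟨x, z', hxz, hno⟩ := hbad' ν W.card
        (fun i => V (W.equivFin.symm i : Finset (Fin n → ℤ))) hr (fun i => by
          have hm := (W.equivFin.symm i).2
          have := (hgood ν _).1 (hV1 _ hm)
          exact ⟨cx_mono this.1 (hKle ν), fun k => factor_mono (this.2 k) (hKle ν)⟩)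
      have hx : x ∈ S ν := (hSm ν x).2 ⟨z', hxz⟩
      obtain ⟨A, hA, hxA⟩ := Finset.mem_biUnion.1 (hsub hx)
      have hxA' : x ∈ A := hxA
      rw [hV2 A hA] at hxA'
      have hpt := (Finset.mem_filter.1 hxA').2
      apply hno (W.equivFin ⟨A, hA⟩)
      simp only [Equiv.symm_apply_apply]
      exact hpt)
    rw [← hL] at t2 t3
    exact ⟨T, t1, t2, t3⟩
  obtain ⟨T, hT⟩ := hcov.choice
  have hTbig : Big Y T := by
    refine big_of_card (ε := ε / 4) (by positivity) (hY 2) ?_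
    filter_upwards [hT, few_le_rpow (fewL.mul (Few.const hY 2)) (c := ε / 4) (by positivity) hev1]
      with ν a b
    have c1 : (Y ν : ℝ) ^ (ε / 2) < (M ν : ℝ) + 1 := by
      rw [hM]
      exact Nat.lt_floor_add_one _
    have c2 : (M ν : ℝ) + 1 ≤ ((T ν).card : ℝ) * ((L ν * 2 : ℕ) : ℝ) := by
      have d1 : M ν + 1 ≤ (T ν).card * (L ν * 2) := by
        have d2 := a.2.1
        have d3 := hM1 ν
        have d4 : (T ν).card * (L ν * 2) = 2 * ((T ν).card * L ν) := by ring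
        omega
      exact_mod_cast d1
    have c3 : (Y ν : ℝ) ^ (ε / 2) = (Y ν : ℝ) ^ (ε / 4) * (Y ν : ℝ) ^ (ε / 4) := by
      rw [← Real.rpow_add (by have := hY1' ν; linarith)]
      congr 1
      ring
    have c4 : (0 : ℝ) < (Y ν : ℝ) ^ (ε / 4) := by
      have := hYε ν (ε / 4) (by positivity)
      linarith
    have c5 : ((T ν).card : ℝ) * ((L ν * 2 : ℕ) : ℝ) ≤ ((T ν).card : ℝ) * (Y ν : ℝ) ^ (ε / 4) :=
      mul_le_mul_of_nonneg_left b (by positivity)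
    have c6 : (Y ν : ℝ) ^ (ε / 4) * (Y ν : ℝ) ^ (ε / 4) < ((T ν).card : ℝ) * (Y ν : ℝ) ^ (ε / 4) := by
      rw [← c3]
      linarith
    exact lt_of_mul_lt_mul_right c6 c4.le
  have hTbd : Bdd Y T := by
    filter_upwards [hT] with ν a t ht j
    have := (hz ν t (a.1 ht)).1 j
    refine ⟨by omega, ?_⟩
    rw [abs_of_nonneg (by omega)]
    exact this.2
  obtain ⟨C, V, Om, o1, o2, o3⟩ := gen_part h1 h2 h3 h4 hY fewD fewF hP' hTbig hTbd (z := z) (by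
    filter_upwards [hT] with ν a t ht k
    have := (hz ν t (a.1 ht)).2 k
    exact ⟨hFb ν _ this.1, this.2.1, this.2.2⟩)
  refine not_big_few o2 fewL ?_
  filter_upwards [o1, o3, hT, hKC C] with ν a b c d
  have hg : good ν (V ν) := by
    rw [hgood]
    exact ⟨cx_mono b.1 d, fun k => factor_mono (b.2.1 k) d⟩
  refine (Finset.card_le_card ?_).trans (c.2.2 _ (hFmm ν (V ν) hg))
  intro t ht
  exact Finset.mem_inter.2 ⟨a ht, Finset.mem_filter.2 ⟨c.1 (a ht), b.2.2 t ht⟩⟩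

end Pool.Agent.N692.HB.Gdm
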